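import Pool.Agent.Y121.ZI.Stm
import Pool.Agent.Y133.Half.Seq
import Pool.Agent.Y133.Half.Key
import Pool.Agent.Y133.Half.SS

/-!
# The lower bound from chains of stable subspaces
-/

open scoped TensorProduct

universe u v w

namespace Pool.Agent.Y510.ZI

open Module Pool.Agent.Y133.Half Pool.Agent.Y121.ZI Pool.Agent.Y121.ZI.NCTheory

open Filter Topology in
lemma exists_close {B : ℝ} (hB : 0 < B) (j : ℕ) {ε : ℝ} (hε : 0 < ε) :
    ∃ c : ℝ, 0 ≤ c ∧ c < B ∧ B ^ j - ε < c ^ j := by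
  have h1 : Tendsto (fun c : ℝ => c ^ j) (𝓝[<] B) (𝓝 (B ^ j)) :=
    ((continuous_pow j).tendsto B).mono_left nhdsWithin_le_nhds
  have h2 : ∀ᶠ c in 𝓝[<] B, B ^ j - ε < c ^ j := h1.eventually (lt_mem_nhds (by linarith))
  have h3 : ∀ᶠ c in 𝓝[<] B, c ∈ Set.Iio B := self_mem_nhdsWithin
  have h4 : ∀ᶠ c in 𝓝[<] B, 0 < c := (nhdsWithin_le_nhds (a := B)) (lt_mem_nhds hB)
  obtain ⟨c, hc⟩ := (h2.and (h3.and h4)).exists
  exact ⟨c, hc.2.2.le, hc.2.1, hc.1⟩

section lin

variable {K : Type u} [Field K] [CharZero K] {V : Type w} [AddCommGroup V] [Module K V]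
  [FiniteDimensional K V]

lemma finrank_compl {g : V →ₗ[K] V} (hg : g ∘ₗ g = g) :
    (LinearMap.id - g) ∘ₗ (LinearMap.id - g) = LinearMap.id - g ∧
    finrank K (LinearMap.range (LinearMap.id - g)) + finrank K (LinearMap.range g) =
      finrank K V := by
  have hG' : (LinearMap.id - g) ∘ₗ (LinearMap.id - g) = LinearMap.id - g := by
    rw [LinearMap.comp_sub, LinearMap.comp_id, LinearMap.sub_comp, LinearMap.id_comp, hg,
      sub_self, sub_zero]
  refine ⟨hG', ?_⟩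
  have e1 := trace_idem hG'
  have e2 := trace_idem hg
  rw [map_sub, e2, LinearMap.trace_id] at e1
  have e3 : ((finrank K (LinearMap.range (LinearMap.id - g)) +
      finrank K (LinearMap.range g) : ℕ) : K) = ((finrank K V : ℕ) : K) := by
    rw [Nat.cast_add, ← e1]
    ring
  exact_mod_cast e3

lemma finrank_range_pos {g : V →ₗ[K] V} (h0 : g ≠ 0) : 1 ≤ finrank K (LinearMap.range g) := by
  rw [Nat.one_le_iff_ne_zero]
  intro h
  apply h0
  have := Submodule.finrank_eq_zero.1 h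
  exact LinearMap.range_eq_bot.1 this

end lin

variable {K : Type u} [Field K] [CharZero K] (T : NCTheory.{u, v, w} K)

/-- **Chains of stable subspaces.** -/
theorem key_chain (C : Cls T) (P Z : T.Obj) (M : ℕ → Submodule K (T.H P))
    (hM : ∀ n, Stab P (M n)) (l : ℕ) (hlt : ∀ n < l, M n < M (n + 1)) (hC : M l ≤ C.C P) :
    ∃ g : ℕ → (T.H P →ₗ[K] T.H P),
      (∀ n < l, g n ∈ T.S P P ∧ g n ∘ₗ g n = g n ∧ g n ≠ 0) ∧
      ∑ n ∈ Finset.range l, a P (g n) Z LinearMap.id ≤ finrank K (C.C Z) := by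
  let X : Fin 2 → T.Obj := ![P, Z]
  obtain ⟨g, hg, hs⟩ := (cat X).chain (i := 0) M hM l hlt 1
  refine ⟨g, hg, ?_⟩
  have h3 : (cat X).gen 0 1 (M l) ≤ (C.C Z : Submodule K (T.H Z)) := by
    refine Submodule.span_le.2 ?_
    rintro _ ⟨v, hv, m, hm, rfl⟩
    exact C.map (X := P) (Y := Z) v hv m (hC hm)
  refine le_trans ?_ (hs.trans (Submodule.finrank_mono (R := K) (M := T.H Z) h3))
  exact le_of_eq rfl

variable {T}

lemma b_le (h2 : SDual2 T) (P Y : T.Obj) (g : T.H P →ₗ[K] T.H P) :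
    b P g Y ≤ a P g (T.ten Y (T.op Y)) LinearMap.id := by
  have h := dual_move (h2 Y).1 g (LinearMap.id : T.H Y →ₗ[K] T.H Y)
  rw [ex_id] at h
  exact h

lemma b_add_le (P Y : T.Obj) (g : T.H P →ₗ[K] T.H P) :
    b P LinearMap.id Y ≤ b P g Y + b P (LinearMap.id - g) Y := by
  have h := a_add_le (ex g (LinearMap.id : T.H Y →ₗ[K] T.H Y))
    (ex (LinearMap.id - g) (LinearMap.id : T.H Y →ₗ[K] T.H Y))
    (LinearMap.id : T.H Y →ₗ[K] T.H Y)
  rw [← ex_add_left, add_sub_cancel] at h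
  exact h

theorem low (h2 : SDual2 T) (hcs : SCS T) : SLow T := by
  intro C A hfull hA P j hgood M l hM hlt hC ε hε
  obtain ⟨hdim, hb⟩ := hgood
  obtain ⟨D, hD⟩ : ∃ D, D = finrank K (T.H A) := ⟨_, rfl⟩
  rw [← hD] at hdim hA
  have hl0 : (0 : ℝ) < l + 1 := by positivity
  obtain ⟨δ, hδ⟩ : ∃ δ : ℝ, δ = ε / (l + 1) := ⟨_, rfl⟩
  have hδ0 : 0 < δ := by rw [hδ]; exact div_pos hε hl0
  have hD0 : (0 : ℝ) < D := by exact_mod_cast hA
  have hB2 : (0 : ℝ) < (D : ℝ) ^ 2 := by positivity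
  obtain ⟨c, hc0, hcB, hc⟩ := exists_close hB2 j hδ0
  obtain ⟨l₀, hl₀⟩ := hfull c hc0 (by rw [← hD]; exact hcB)
  refine ⟨l₀, fun n hn => ?_⟩
  obtain ⟨g, hg, hs⟩ := key_chain T C P (zz A n) M hM l hlt hC
  have hpow := ratio_pow hc0 hl₀ j n hn
  have hr : ∀ i ∈ Finset.range l, (1 - δ) * (al A n : ℝ) ≤ (a P (g i) (zz A n) LinearMap.id : ℝ) := by
    intro i hi
    obtain ⟨h3, h4, h5⟩ := hg i (Finset.mem_range.1 hi)
    obtain ⟨h6, h7⟩ := finrank_compl h4
    have h8 := finrank_range_pos h5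
    have h9 := hcs P (LinearMap.id - g i) (Submodule.sub_mem _ S_id h3) h6 (T.pow A n)
    have h10 := b_add_le P (T.pow A n) (g i)
    have h11 := b_le h2 P (T.pow A n) (g i)
    have h12 := hb n
    have h13 : finrank K (LinearMap.range (LinearMap.id - g i)) + 1 ≤ D ^ (2 * j) := by
      rw [← hdim, ← h7]
      omega
    have h14 : al A (n + j) + al A n ≤ a P (g i) (zz A n) LinearMap.id + D ^ (2 * j) * al A n := by
      have h15 : b P (LinearMap.id - g i) (T.pow A n) + al A n ≤ D ^ (2 * j) * al A n := by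
        calc b P (LinearMap.id - g i) (T.pow A n) + al A n ≤
            finrank K (LinearMap.range (LinearMap.id - g i)) * al A n + al A n :=
              Nat.add_le_add_right h9 _
          _ = (finrank K (LinearMap.range (LinearMap.id - g i)) + 1) * al A n := by ring
          _ ≤ _ := Nat.mul_le_mul_right _ h13
      have h16 : b P (g i) (T.pow A n) ≤ a P (g i) (zz A n) LinearMap.id := h11
      omega
    have h17 : (al A (n + j) : ℝ) + al A n ≤
        a P (g i) (zz A n) LinearMap.id + ((D : ℝ) ^ 2) ^ j * al A n := by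
      rw [← pow_mul]
      exact_mod_cast h14
    have h18 : (0 : ℝ) ≤ al A n := Nat.cast_nonneg _
    nlinarith [mul_le_mul_of_nonneg_right hc.le h18]
  have hsum : (l : ℝ) * ((1 - δ) * al A n) ≤ finrank K (C.C (zz A n)) := by
    calc (l : ℝ) * ((1 - δ) * al A n)
        = ∑ i ∈ Finset.range l, (1 - δ) * (al A n : ℝ) := by
          rw [Finset.sum_const, Finset.card_range, nsmul_eq_mul]
      _ ≤ ∑ i ∈ Finset.range l, (a P (g i) (zz A n) LinearMap.id : ℝ) :=
          Finset.sum_le_sum hr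
      _ ≤ _ := by exact_mod_cast hs
  refine le_trans ?_ hsum
  have h19 : (l : ℝ) * δ ≤ ε := by
    rw [hδ, ← mul_div_assoc, div_le_iff₀ hl0]
    nlinarith
  have h20 : (0 : ℝ) ≤ al A n := Nat.cast_nonneg _
  nlinarith [mul_le_mul_of_nonneg_right h19 h20]

end Pool.Agent.Y510.ZI
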